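import Mathlib

namespace Pool.Agent.H.MP_16b74e_gt

open SimpleGraph Function

variable {V : Type}

structure PT (G : SimpleGraph V) (c : V) (par : V → V) (dep : V → ℕ) : Prop where
  pc : par c = c
  dp : ∀ v, v ≠ c → dep (par v) + 1 = dep v
  adj : ∀ u v, G.Adj u v ↔ (u ≠ c ∧ par u = v) ∨ (v ≠ c ∧ par v = u)

def pg (c : V) (par : V → V) (dep : V → ℕ) (h : ∀ v, v ≠ c → dep (par v) + 1 = dep v) :
    SimpleGraph V where
  Adj u v := (u ≠ c ∧ par u = v) ∨ (v ≠ c ∧ par v = u)
  symm := ⟨fun _ _ a => a.symm⟩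
  loopless := ⟨fun u a => by
    have b : u ≠ c ∧ par u = u := a.elim id id
    have := h u b.1
    rw [b.2] at this
    omega⟩

variable {G : SimpleGraph V} {c : V} {par : V → V} {dep : V → ℕ}

lemma PT.up (h : PT G c par dep) {v : V} (hv : v ≠ c) : G.Adj v (par v) :=
  (h.adj _ _).2 (Or.inl ⟨hv, rfl⟩)

lemma PT.ind (h : PT G c par dep) {P : V → Prop} (h0 : P c)
    (h1 : ∀ v, v ≠ c → P (par v) → P v) (v : V) : P v := by
  induction hn : dep v using Nat.strong_induction_on generalizing v with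
  | _ n ih =>
  by_cases hv : v = c
  · exact hv ▸ h0
  · exact h1 v hv (ih _ (by have := h.dp v hv; omega) _ rfl)

lemma PT.dep_le (h : PT G c par dep) (k : ℕ) (v : V) : dep (par^[k] v) ≤ dep v := by
  induction k with
  | zero => rfl
  | succ k ih =>
    rw [iterate_succ_apply']
    by_cases e : par^[k] v = c
    · rw [e, h.pc, ← e]; exact ih
    · have := h.dp _ e; omega

lemma PT.dep_eq (h : PT G c par dep) (k : ℕ) (v : V) (hk : par^[k] v ≠ c) :
    dep (par^[k] v) + k = dep v := by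
  induction k with
  | zero => rfl
  | succ k ih =>
    rw [iterate_succ_apply'] at hk ⊢
    have e : par^[k] v ≠ c := fun e => hk (by rw [e, h.pc])
    have := h.dp _ e
    have := ih e
    omega

lemma PT.desc (h : PT G c par dep) {s a b : V} (hab : G.Adj a b) (ha : ∃ k, par^[k] a = s)
    (hn : ¬ (a = s ∧ b = par s)) : ∃ k, par^[k] b = s := by
  obtain ⟨k, hk⟩ := ha
  rcases (h.adj _ _).1 hab with e | e
  · cases k with
    | zero => exact absurd ⟨hk, by rw [← e.2, ← hk]; rfl⟩ hn
    | succ k => exact ⟨k, by rw [← e.2]; exact hk⟩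
  · exact ⟨k + 1, by rw [iterate_succ_apply, e.2, hk]⟩

lemma PT.cut (h : PT G c par dep) {s a b : V} (p : G.Walk a b) (ha : ∃ k, par^[k] a = s)
    (hs : s ∉ p.support) : ∃ k, par^[k] b = s := by
  induction p with
  | nil => exact ha
  | cons hab q ih =>
    simp only [Walk.support_cons, List.mem_cons, not_or] at hs
    exact ih (h.desc hab ha fun e => hs.1 e.1.symm) hs.2

lemma PT.isTree (h : PT G c par dep) : G.IsTree := by
  have hc : ∀ v, G.Reachable v c := h.ind (Reachable.refl c) fun v hv ih => (h.up hv).reachable.trans ih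
  have key : ∀ u, u ≠ c → G.IsBridge s(u, par u) := by
    intro u hu
    rw [isBridge_iff, reachable_iff_reflTransGen]
    intro r
    have : ∀ b, Relation.ReflTransGen (G.deleteEdges {s(u, par u)}).Adj u b →
        ∃ k, par^[k] b = u := by
      intro b r
      induction r with
      | refl => exact ⟨0, rfl⟩
      | tail _ hab ih =>
        rw [deleteEdges_adj] at hab
        refine h.desc hab.1 ih ?_
        rintro ⟨rfl, rfl⟩
        exact hab.2 rfl
    obtain ⟨k, hk⟩ := this _ r
    have a := h.dep_le k (par u)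
    have b := h.dp u hu
    rw [hk] at a
    omega
  have : Nonempty V := ⟨c⟩
  refine ⟨⟨fun u v => (hc u).trans (hc v).symm⟩, isAcyclic_iff_forall_adj_isBridge.2 fun u v a => ?_⟩
  rcases (h.adj _ _).1 a with ⟨e, rfl⟩ | ⟨e, rfl⟩
  · exact key u e
  · rw [Sym2.eq_swap]; exact key v e

lemma exists_PT (hG : G.IsTree) (c : V) : ∃ par dep, PT G c par dep := by
  classical
  have ex : ∀ v, v ≠ c → ∃ w, G.Adj v w ∧ G.dist w c + 1 = G.dist v c := by
    intro v hv
    obtain ⟨p, hp⟩ := hG.connected.exists_walk_length_eq_dist v c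
    cases p with
    | nil => exact absurd rfl hv
    | @cons _ w _ a q =>
      refine ⟨w, a, ?_⟩
      have h1 := G.dist_le q
      have h2 := hG.dist_eq_dist_add_one_of_adj c a
      rw [Walk.length_cons] at hp
      rw [dist_comm (u := c), dist_comm (u := c)] at h2
      omega
  have path : ∀ v w, (a : G.Adj v w) → G.dist w c + 1 = G.dist v c →
      ∃ q : G.Walk w c, (Walk.cons a q).IsPath := by
    intro v w a e
    obtain ⟨q, hq⟩ := hG.connected.exists_walk_length_eq_dist w c
    exact ⟨q, Walk.isPath_of_length_eq_dist _ (by rw [Walk.length_cons, hq, e])⟩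
  have un : ∀ v w w', G.Adj v w → G.Adj v w' → G.dist w c + 1 = G.dist v c →
      G.dist w' c + 1 = G.dist v c → w = w' := by
    intro v w w' a a' e e'
    obtain ⟨q, hq⟩ := path v w a e
    obtain ⟨q', hq'⟩ := path v w' a' e'
    have := congrArg (fun p : G.Path v c => p.1.snd)
      ((hG.isAcyclic.subsingleton_path v c).elim ⟨_, hq⟩ ⟨_, hq'⟩)
    simpa using this
  choose! f hf using ex
  refine ⟨fun v => if v = c then c else f v, fun v => G.dist v c, by simp, fun v hv => ?_,
    fun u v => ⟨fun a => ?_, ?_⟩⟩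
  · simp only [hv, if_false]; exact (hf v hv).2
  · have h2 := hG.dist_eq_dist_add_one_of_adj c a
    rw [dist_comm (u := c), dist_comm (u := c)] at h2
    rcases h2 with e | e
    · have hu : u ≠ c := by rintro rfl; simp at e
      exact Or.inl ⟨hu, by simp only [hu, if_false]; exact un u _ _ (hf u hu).1 a (hf u hu).2 e.symm⟩
    · have hv : v ≠ c := by rintro rfl; simp at e
      exact Or.inr ⟨hv, by
        simp only [hv, if_false]; exact un v _ _ (hf v hv).1 a.symm (hf v hv).2 e.symm⟩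
  · rintro (⟨e, rfl⟩ | ⟨e, rfl⟩)
    · simp only [e, if_false]; exact (hf u e).1
    · simp only [e, if_false]; exact (hf v e).1.symm

def Gen [MetricSpace V] (T : SimpleGraph V) (l : V → ℝ) : Prop :=
  (∀ v, 0 ≤ l v) ∧ ∀ u v, u ≠ v → ∀ p : T.Walk u v, p.IsPath →
    IsGreatest (l '' {w | w ∈ p.support}) (dist u v)

def W (G : SimpleGraph V) (l : V → ℝ) (r : ℝ) (u v : V) : Prop :=
  ∃ p : G.Walk u v, ∀ w ∈ p.support, l w ≤ r

variable {l : V → ℝ} {r : ℝ}

lemma W.refl {u : V} (h : l u ≤ r) : W G l r u u := ⟨.nil, by simpa using h⟩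

lemma W.symm {u v : V} (h : W G l r u v) : W G l r v u := by
  obtain ⟨p, hp⟩ := h
  exact ⟨p.reverse, by simpa using hp⟩

lemma W.trans {u v w : V} (h : W G l r u v) (h' : W G l r v w) : W G l r u w := by
  obtain ⟨p, hp⟩ := h
  obtain ⟨q, hq⟩ := h'
  exact ⟨p.append q, fun z hz => ((Walk.mem_support_append_iff _ _).1 hz).elim (hp z) (hq z)⟩

lemma W.cons {u v w : V} (a : G.Adj u v) (hu : l u ≤ r) (h : W G l r v w) : W G l r u w := by
  obtain ⟨p, hp⟩ := h
  exact ⟨.cons a p, by simpa [hu] using hp⟩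

variable [MetricSpace V]

lemma Gen.adj (h : Gen G l) {u v : V} (a : G.Adj u v) : dist u v ≤ max (l u) (l v) := by
  obtain ⟨w, hw, e⟩ := (h.2 u v a.ne a.toWalk (Walk.IsPath.of_adj a)).1
  rw [← e]
  simp only [Adj.toWalk, Walk.support_cons, Walk.support_nil, List.mem_cons, List.not_mem_nil,
    or_false, Set.mem_ofPred_eq] at hw
  rcases hw with rfl | rfl <;> simp

lemma Gen.walk (h : Gen G l) (hG : G.Connected) {u v : V} (a : u ≠ v) : W G l (dist u v) u v := by
  classical
  obtain ⟨p⟩ := hG u v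
  exact ⟨p.bypass, fun w hw => (h.2 u v a _ p.bypass_isPath).2 ⟨w, hw, rfl⟩⟩

lemma W.dist_le [IsUltrametricDist V] (h : ∀ u v, G.Adj u v → dist u v ≤ max (l u) (l v))
    (hr : 0 ≤ r) {u v : V} (a : W G l r u v) : dist u v ≤ r := by
  obtain ⟨p, hp⟩ := a
  induction p with
  | nil => simpa using hr
  | @cons u v w a q ih =>
    simp only [Walk.support_cons, List.mem_cons, forall_eq_or_imp] at hp
    exact (IsUltrametricDist.dist_triangle_max u v w).trans (max_le ((h u v a).trans
      (max_le hp.1 (hp.2 v q.start_mem_support))) (ih hp.2))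

lemma gen_of [IsUltrametricDist V] (hG : G.IsAcyclic) (h0 : ∀ v, 0 ≤ l v)
    (h : ∀ u v, G.Adj u v → dist u v ≤ max (l u) (l v))
    (h' : ∀ u v, u ≠ v → W G l (dist u v) u v) : Gen G l := by
  classical
  refine ⟨h0, fun u v a p hp => ?_⟩
  have up : ∀ w ∈ p.support, l w ≤ dist u v := by
    obtain ⟨q, hq⟩ := h' u v a
    have : p = q.bypass := congrArg Subtype.val
      ((hG.subsingleton_path u v).elim ⟨p, hp⟩ ⟨_, q.bypass_isPath⟩)
    exact fun w hw => hq w (q.support_bypass_subset_support (this ▸ hw))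
  obtain ⟨w, hw, hm⟩ := p.support.toFinset.exists_max_image l ⟨u, by simp⟩
  simp only [List.mem_toFinset] at hw hm
  refine ⟨⟨w, hw, le_antisymm (up w hw) (W.dist_le h (h0 w) ⟨p, hm⟩)⟩, ?_⟩
  rintro _ ⟨z, hz, rfl⟩
  exact up z hz

def IsRay (R : SimpleGraph V) (x : ℕ ≃ V) : Prop :=
  ∀ u v, R.Adj u v ↔ ∃ n, (u = x n ∧ v = x (n + 1)) ∨ (v = x n ∧ u = x (n + 1))

omit [MetricSpace V] in
lemma IsRay.pt {x : ℕ ≃ V} (h : IsRay G x) :
    PT G (x 0) (fun v => x (x.symm v - 1)) (fun v => x.symm v) := by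
  refine ⟨by simp, fun v hv => ?_, fun u v => ?_⟩
  · have : x.symm v ≠ 0 := fun e => hv (by rw [← e]; simp)
    simp only [Equiv.symm_apply_apply]; omega
  · obtain ⟨i, rfl⟩ := x.surjective u
    obtain ⟨j, rfl⟩ := x.surjective v
    rw [h]
    simp only [Equiv.symm_apply_apply, ne_eq, x.injective.eq_iff]
    constructor
    · rintro ⟨n, a | a⟩ <;> omega
    · rintro (a | a)
      · exact ⟨j, by omega⟩
      · exact ⟨i, by omega⟩

omit [MetricSpace V] in
lemma ray_iter (x : ℕ ≃ V) (k j : ℕ) : (fun v => x (x.symm v - 1))^[k] (x j) = x (j - k) := by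
  induction k with
  | zero => rfl
  | succ k ih => rw [iterate_succ_apply', ih]; simp [Nat.sub_sub]

lemma IsRay.elim {x : ℕ ≃ V} (h : IsRay G x) (hg : Gen G l) {i k j : ℕ} (hij : i < j) (h1 : i ≤ k)
    (h2 : k ≤ j) : l (x k) ≤ dist (x i) (x j) := by
  obtain ⟨p, hp⟩ := (hg.walk h.pt.isTree.connected (x.injective.ne hij.ne)).symm
  refine hp _ ?_
  by_contra hn
  obtain ⟨m, hm⟩ := h.pt.cut p ⟨j - k, by rw [ray_iter]; congr 1; omega⟩ hn
  rw [ray_iter, x.injective.eq_iff] at hm
  obtain rfl : i = k := by omega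
  exact hn p.end_mem_support

lemma IsRay.gen [IsUltrametricDist V] {x : ℕ ≃ V} (h : IsRay G x) (h0 : ∀ v, 0 ≤ l v)
    (h1 : ∀ n, dist (x n) (x (n + 1)) ≤ max (l (x n)) (l (x (n + 1))))
    (h2 : ∀ i k j, i < j → i ≤ k → k ≤ j → l (x k) ≤ dist (x i) (x j)) : Gen G l := by
  have key : ∀ r i m, (∀ k, i ≤ k → k ≤ i + m → l (x k) ≤ r) → W G l r (x (i + m)) (x i) := by
    intro r i m
    induction m with
    | zero => exact fun a => W.refl (a i le_rfl le_rfl)
    | succ m ih =>
      exact fun a => W.cons ((h _ _).2 ⟨i + m, Or.inr ⟨rfl, rfl⟩⟩) (a _ (by omega) le_rfl)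
        (ih fun k b c => a k b (by omega))
  refine gen_of h.pt.isTree.isAcyclic h0 (fun u v a => ?_) fun u v a => ?_
  · obtain ⟨n, ⟨rfl, rfl⟩ | ⟨rfl, rfl⟩⟩ := (h _ _).1 a
    · exact h1 n
    · rw [_root_.dist_comm, max_comm]; exact h1 n
  · obtain ⟨i, rfl⟩ := x.surjective u
    obtain ⟨j, rfl⟩ := x.surjective v
    rcases lt_or_gt_of_ne (x.injective.ne_iff.1 a) with b | b
    · obtain ⟨m, rfl⟩ := Nat.exists_eq_add_of_le b.le
      exact (key _ i m fun k => h2 i k _ b).symm
    · obtain ⟨m, rfl⟩ := Nat.exists_eq_add_of_le b.le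
      rw [_root_.dist_comm]
      exact key _ j m fun k => h2 j k _ b

omit [MetricSpace V] in
lemma enum {β : Type*} [LinearOrder β] [Infinite V] (key : V → β) (hi : Injective key)
    (hf : ∀ v, {w | key w < key v}.Finite) : ∃ x : ℕ ≃ V, StrictMono (key ∘ x) := by
  classical
  let rk : V → ℕ := fun v => {w | key w < key v}.ncard
  have h1 : ∀ u v, key u < key v → rk u < rk v := fun u v a =>
    Set.ncard_lt_ncard ⟨fun w (hw : key w < key u) => hw.trans a, fun b => lt_irrefl _ (b a)⟩ (hf v)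
  have h2 : Injective rk := fun u v e => by
    rcases lt_trichotomy (key u) (key v) with a | a | a
    · exact absurd e (h1 _ _ a).ne
    · exact hi a
    · exact absurd e (h1 _ _ a).ne'
  have : Infinite (Set.range rk) := (Set.infinite_range_of_injective h2).to_subtype
  let e := (Nat.Subtype.orderIsoOfNat (Set.range rk))
  refine ⟨e.toEquiv.trans (Equiv.ofInjective rk h2).symm, fun i j a => ?_⟩
  have h3 : ∀ n, rk ((e.toEquiv.trans (Equiv.ofInjective rk h2).symm) n) = e n := fun n =>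
    Equiv.apply_ofInjective_symm h2 (e n)
  by_contra b
  have c : (e i : ℕ) < e j := e.strictMono a
  rw [← h3, ← h3] at c
  rcases (not_lt.1 b).lt_or_eq with d | d
  · exact absurd (h1 _ _ d) c.not_gt
  · exact absurd (congrArg rk (hi d)) c.ne'

end Pool.Agent.H.MP_16b74e_gt
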