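import Pool.Agent.H.MP_16b74e_gt.A

namespace Pool.Agent.H.MP_16b74e_gt

open SimpleGraph Function Set Filter Topology

variable {X : Type} [MetricSpace X] [IsUltrametricDist X]

def Star (T : SimpleGraph X) : Prop := ∃! c, 2 < (T.neighborSet c).encard

def Rayless (T : SimpleGraph X) : Prop :=
  ¬ ∃ z : ℕ → X, Injective z ∧ ∀ n, T.Adj (z n) (z (n + 1))

lemma fwd (y : ℕ → X) (hy : Injective y) (L : ℕ → ℝ) (L0 : ∀ n, 0 ≤ L n)
    (h1 : ∀ n, dist (y n) (y (n + 1)) ≤ max (L n) (L (n + 1)))
    (h2 : ∀ i k j, i < j → i ≤ k → k ≤ j → L k ≤ dist (y i) (y j))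
    (htb : TotallyBounded (range y)) (hne : range y ≠ univ) [CompleteSpace X]
    (hd : Dense (range y)) :
    CompactSpace X ∧ ∃ T : SimpleGraph X, T.IsTree ∧ Star T ∧ Rayless T ∧ ∃ l, Gen T l := by
  classical
  have fin : ∀ ε > 0, {n | ε ≤ L n}.Finite := by
    intro ε hε
    by_contra hn
    obtain ⟨t, ht, hc⟩ := Metric.totallyBounded_iff.1 htb (ε / 2) (by positivity)
    have : ∀ n, ∃ z ∈ t, y n ∈ Metric.ball z (ε / 2) := fun n => by
      simpa using hc (mem_range_self n)
    choose f hf using this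
    obtain ⟨i, hi, j, hj, hij, e⟩ := Set.Infinite.exists_ne_map_eq_of_mapsTo (f := f) hn
      (fun n _ => (hf n).1) ht
    have a := dist_triangle_right (y i) (y j) (f i)
    have b := (hf i).2
    have c := (hf j).2
    rw [← e] at c
    rw [Metric.mem_ball] at b c
    rcases lt_or_gt_of_ne hij with d | d
    · linarith [h2 i i j d le_rfl d.le, show ε ≤ L i from hi]
    · linarith [h2 j j i d le_rfl d.le, show ε ≤ L j from hj, _root_.dist_comm (y i) (y j)]
  have small : ∀ ε > 0, ∃ N, ∀ n ≥ N, L n < ε := fun ε hε => by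
    obtain ⟨N, hN⟩ := (fin ε hε).bddAbove
    exact ⟨N + 1, fun n hn => not_le.1 fun a => by have := hN a; omega⟩
  have ch : ∀ r i m, (∀ k ≥ i, L k ≤ r) → dist (y i) (y (i + m)) ≤ r := by
    intro r i m a
    induction m with
    | zero => simpa using (L0 i).trans (a i le_rfl)
    | succ m ih =>
      exact (IsUltrametricDist.dist_triangle_max _ (y (i + m)) _).trans
        (max_le ih ((h1 _).trans (max_le (a _ (by omega)) (a _ (by omega)))))
  have hc : CauchySeq y := by
    refine Metric.cauchySeq_iff'.2 fun ε hε => ?_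
    obtain ⟨N, hN⟩ := small (ε / 2) (by positivity)
    refine ⟨N, fun n hn => ?_⟩
    obtain ⟨m, rfl⟩ := Nat.exists_eq_add_of_le hn
    rw [_root_.dist_comm]
    linarith [ch (ε / 2) N m fun k hk => (hN k hk).le]
  obtain ⟨c, hlim⟩ := cauchySeq_tendsto_of_complete hc
  have hK := hlim.isCompact_insert_range
  have hU : insert c (range y) = univ := by
    rw [eq_univ_iff_forall]
    exact fun z => closure_minimal (subset_insert _ _) hK.isClosed (hd z)
  have hcy : ∀ n, y n ≠ c := fun n e => hne (by rw [← hU, insert_eq_of_mem (show c ∈ range y from ⟨n, e⟩)])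
  have cases : ∀ z, z = c ∨ ∃ n, y n = z := fun z => (hU.ge (mem_univ z) :)
  have dc1 : ∀ r i, (∀ k ≥ i, L k ≤ r) → dist (y i) c ≤ r := fun r i a =>
    le_of_tendsto' (tendsto_const_nhds.dist (hlim.comp (tendsto_add_atTop_nat i)))
      fun m => by simpa [add_comm] using ch r i m a
  have dc2 : ∀ i k, i ≤ k → L k ≤ dist (y i) c := fun i k a =>
    ge_of_tendsto (tendsto_const_nhds.dist hlim)
      ((eventually_gt_atTop k).mono fun j b => h2 i k j (by omega) a b.le)
  let Rec : ℕ → Prop := fun m => ∀ k ≥ m, L k ≤ L m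
  have hR : ∀ n, ∃ m, n ≤ m ∧ Rec m := by
    intro n
    obtain ⟨k, hk, hk0⟩ : ∃ k ≥ n, 0 < L k := by
      have := (dist_pos.2 (hy.ne (show n ≠ n + 1 by omega))).trans_le (h1 n)
      rcases lt_max_iff.1 this with a | a
      · exact ⟨n, le_rfl, a⟩
      · exact ⟨n + 1, by omega, a⟩
    obtain ⟨m, hm, hmax⟩ := Set.exists_max_image ({j | L k ≤ L j} ∩ Ici n) L
      ((fin _ hk0).inter_of_left _) ⟨k, le_refl (L k), hk⟩
    refine ⟨m, hm.2, fun j hj => ?_⟩
    by_cases a : L k ≤ L j
    · exact hmax j ⟨a, le_trans hm.2 hj⟩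
    · exact (not_le.1 a).le.trans hm.1
  let nx : ℕ → ℕ := fun n => Nat.find (hR n)
  have nx1 : ∀ n, n ≤ nx n := fun n => (Nat.find_spec (hR n)).1
  have nx2 : ∀ n, Rec n → nx n = n := fun n a =>
    le_antisymm (Nat.find_min' _ ⟨le_rfl, a⟩) (nx1 n)
  have nx3 : ∀ n, ¬ Rec n → nx (n + 1) = nx n := fun n a => by
    have b := Nat.find_spec (hR n)
    have b' := Nat.find_spec (hR (n + 1))
    refine le_antisymm (Nat.find_min' _ ⟨lt_of_le_of_ne b.1 fun e => a (e ▸ b.2), b.2⟩)
      (Nat.find_min' _ ⟨(Nat.le_succ n).trans b'.1, b'.2⟩)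
  let ix : X → ℕ := invFun y
  have hix : ∀ n, ix (y n) = n := leftInverse_invFun hy
  let par : X → X := fun z => if z = c then c else if Rec (ix z) then c else y (ix z + 1)
  let dep : X → ℕ := fun z => if z = c then 0 else nx (ix z) - ix z + 1
  let l : X → ℝ := fun z => if z = c then 0 else L (ix z)
  have par1 : ∀ n, Rec n → par (y n) = c := fun n a => by simp [par, hcy, hix, a]
  have par2 : ∀ n, ¬ Rec n → par (y n) = y (n + 1) := fun n a => by simp [par, hcy, hix, a]
  have dep1 : ∀ n, dep (y n) = nx n - n + 1 := fun n => by simp [dep, hcy, hix]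
  have l1 : ∀ n, l (y n) = L n := fun n => by simp [l, hcy, hix]
  have lc : l c = 0 := by simp [l]
  have hdp : ∀ v, v ≠ c → dep (par v) + 1 = dep v := by
    intro v hv
    obtain ⟨n, rfl⟩ := (cases v).resolve_left hv
    by_cases a : Rec n
    · rw [par1 n a, dep1, nx2 n a]; simp [dep]
    · have := nx1 (n + 1)
      rw [par2 n a, dep1, dep1, ← nx3 n a]; omega
  let T := pg c par dep hdp
  have hT : PT T c par dep := ⟨by simp [par], hdp, fun _ _ => Iff.rfl⟩
  have adjy : ∀ n z, T.Adj (y n) z → z = par (y n) ∨ (∃ m, z = y m ∧ n = m + 1 ∧ ¬ Rec m) := by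
    rintro n z (a | a)
    · exact Or.inl a.2.symm
    · obtain ⟨m, rfl⟩ := (cases z).resolve_left a.1
      by_cases b : Rec m
      · exact absurd (a.2.symm.trans (par1 m b)) (hcy n)
      · exact Or.inr ⟨m, rfl, hy (a.2.symm.trans (par2 m b)), b⟩
  refine ⟨⟨hU ▸ hK⟩, T, hT.isTree, ⟨c, ?_, fun z hz => ?_⟩, ?_, l, ?_⟩
  · have : (T.neighborSet c).Infinite := by
      have a : {m | Rec m}.Infinite := Set.infinite_of_forall_exists_gt fun n => by
        obtain ⟨m, b, b'⟩ := hR (n + 1)
        exact ⟨m, b', b⟩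
      refine (a.image hy.injOn).mono ?_
      rintro _ ⟨m, hm, rfl⟩
      exact Or.inr ⟨hcy m, par1 m hm⟩
    simp only [this.encard_eq]
    decide
  · by_contra hn
    obtain ⟨n, rfl⟩ := (cases z).resolve_left hn
    have : T.neighborSet (y n) ⊆ {par (y n), y (n - 1)} := fun z hz => by
      rcases adjy n z hz with a | ⟨m, rfl, rfl, -⟩
      · exact Or.inl a
      · exact Or.inr rfl
    have := (encard_le_encard this).trans (encard_insert_le _ _)
    rw [encard_singleton] at this
    exact absurd hz (not_lt.2 this)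
  · rintro ⟨z, hz, ha⟩
    obtain ⟨N, hN⟩ : ∃ N, ∀ n ≥ N, z n ≠ c := by
      by_cases a : ∃ n, z n = c
      · obtain ⟨n, a⟩ := a
        exact ⟨n + 1, fun m hm e => by have := hz (e.trans a.symm); omega⟩
      · exact ⟨0, fun n _ e => a ⟨n, e⟩⟩
    have key : ∀ m, nx (ix (z (N + m))) = nx (ix (z N)) := by
      intro m
      induction m with
      | zero => rfl
      | succ m ih =>
        obtain ⟨i, hi⟩ := (cases _).resolve_left (hN (N + m) (by omega))
        have b := hN (N + m + 1) (by omega)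
        have a := ha (N + m)
        rw [← ih, ← add_assoc, ← hi, hix]
        rw [← hi] at a
        rcases adjy i _ a with e | ⟨j, e, rfl, f⟩
        · by_cases g : Rec i
          · exact absurd (e.trans (par1 i g)) b
          · rw [e, par2 i g, hix, nx3 i g]
        · rw [e, hix, nx3 j f]
    refine Set.infinite_of_injective_forall_mem (f := fun m => z (N + m))
      (s := y '' Iic (nx (ix (z N)))) (fun a b e => by simpa using hz e) (fun m => ?_)
      ((finite_Iic _).image _)
    obtain ⟨i, hi⟩ := (cases _).resolve_left (hN (N + m) (by omega))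
    refine ⟨i, ?_, hi⟩
    rw [mem_Iic, ← key m, ← hi, hix]
    exact nx1 i
  · have up : ∀ v, v ≠ c → dist v (par v) ≤ max (l v) (l (par v)) := by
      intro v hv
      obtain ⟨n, rfl⟩ := (cases v).resolve_left hv
      by_cases a : Rec n
      · rw [par1 n a, l1]; exact (dc1 _ n a).trans (le_max_left _ _)
      · rw [par2 n a, l1, l1]; exact h1 n
    have Wc : ∀ r v, 0 ≤ r → (∀ n, y n = v → ∀ k ≥ n, L k ≤ r) → W T l r v c := by
      intro r v hr
      refine hT.ind (P := fun v => (∀ n, y n = v → ∀ k ≥ n, L k ≤ r) → W T l r v c)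
        (fun _ => W.refl (lc ▸ hr)) (fun v hv ih a => ?_) v
      obtain ⟨n, rfl⟩ := (cases v).resolve_left hv
      refine W.cons (hT.up hv) (l1 n ▸ a n rfl n le_rfl) (ih fun m e k hk => a n rfl k ?_)
      by_cases b : Rec n
      · exact absurd (e.trans (par1 n b)) (hcy m)
      · have := hy (e.trans (par2 n b)); omega
    have Wc' : ∀ r n, (∀ k ≥ n, L k ≤ r) → W T l r (y n) c := fun r n a =>
      Wc r _ ((L0 n).trans (a n le_rfl)) fun m e => hy e ▸ a
    have Wl : ∀ r m i, (∀ k, i ≤ k → k ≤ i + m → L k ≤ r) → (∀ k, i ≤ k → k < i + m → ¬ Rec k) →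
        W T l r (y (i + m)) (y i) := by
      intro r m i
      induction m with
      | zero => exact fun a _ => W.refl (l1 i ▸ a i le_rfl le_rfl)
      | succ m ih =>
        exact fun a b => W.cons (Or.inr ⟨hcy _, par2 _ (b (i + m) (by omega) (by omega))⟩)
          (l1 _ ▸ a _ (by omega) le_rfl)
          (ih (fun k p q => a k p (by omega)) fun k p q => b k p (by omega))
    have Wy : ∀ i j, i < j → W T l (dist (y i) (y j)) (y i) (y j) := by
      intro i j hij
      by_cases a : ∃ m, i ≤ m ∧ m < j ∧ Rec m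
      · obtain ⟨m, a1, a2, a3⟩ := a
        have : ∀ k ≥ i, L k ≤ dist (y i) (y j) := fun k hk => by
          by_cases b : k ≤ j
          · exact h2 i k j hij hk b
          · exact (a3 k (by omega)).trans (h2 i m j hij a1 a2.le)
        exact (Wc' _ i this).trans (Wc' _ j fun k hk => this k (by omega)).symm
      · obtain ⟨m, rfl⟩ := Nat.exists_eq_add_of_le hij.le
        exact (Wl _ m i (fun k => h2 i k _ hij) fun k p q s => a ⟨k, p, q, s⟩).symm
    refine gen_of hT.isTree.isAcyclic (fun v => ?_) ?_ fun u v a => ?_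
    · rcases cases v with rfl | ⟨n, rfl⟩
      · exact lc.ge
      · exact l1 n ▸ L0 n
    · rintro u v (⟨a, rfl⟩ | ⟨a, rfl⟩)
      · exact up u a
      · rw [_root_.dist_comm, max_comm]; exact up v a
    · rcases cases u with rfl | ⟨i, rfl⟩ <;> rcases cases v with rfl | ⟨j, rfl⟩
      · exact absurd rfl a
      · rw [_root_.dist_comm]; exact (Wc' _ j (dc2 j)).symm
      · exact Wc' _ i (dc2 i)
      · rcases lt_or_gt_of_ne (hy.ne_iff.1 a) with b | b
        · exact Wy i j b
        · rw [_root_.dist_comm]; exact (Wy j i b).symm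

end Pool.Agent.H.MP_16b74e_gt
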