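import Pool.Agent.H.MP_16b74e_gt.B

namespace Pool.Agent.H.MP_16b74e_gt

open SimpleGraph Function Set Filter Topology

variable {X : Type} [MetricSpace X] [IsUltrametricDist X]

lemma bwd [Infinite X] [CompactSpace X] {T : SimpleGraph X} (hT : T.IsTree) (hS : Star T)
    {l : X → ℝ} (hg : Gen T l) :
    ∃ c : X, Dense ({c}ᶜ : Set X) ∧ ∃ x : ℕ ≃ ({c}ᶜ : Set X),
      (∀ n, dist (x n : X) (x (n + 1)) ≤ max (l (x n)) (l (x (n + 1)))) ∧
      ∀ i k j, i < j → i ≤ k → k ≤ j → l (x k) ≤ dist (x i : X) (x j) := by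
  classical
  obtain ⟨c, -, hc⟩ := hS
  obtain ⟨par, dep, h⟩ := exists_PT hT c
  have deg : ∀ v, v ≠ c → (T.neighborSet v).encard ≤ 2 := fun v hv => not_lt.1 fun a => hv (hc v a)
  have child : ∀ v a b, v ≠ c → par a = v → par b = v → a = b := by
    intro v a b hv ha hb
    by_contra hn
    have a1 : a ≠ c := fun e => hv (by rw [← ha, e, h.pc])
    have b1 : b ≠ c := fun e => hv (by rw [← hb, e, h.pc])
    have d1 := h.dp a a1
    have d2 := h.dp b b1
    have d3 := h.dp v hv
    rw [ha] at d1
    rw [hb] at d2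
    have n1 : par v ≠ a := fun e => by rw [e] at d3; omega
    have n2 : par v ≠ b := fun e => by rw [e] at d3; omega
    have : ({par v, a, b} : Set X) ⊆ T.neighborSet v := by
      rintro z (rfl | rfl | rfl)
      · exact h.up hv
      · exact (ha ▸ h.up a1).symm
      · exact (hb ▸ h.up b1).symm
    have e := (encard_le_encard this).trans (deg v hv)
    rw [encard_insert_of_notMem (by simp [n1, n2]), encard_pair hn] at e
    exact absurd e (by decide)
  have chain : ∀ b a u v s, s ≠ c → par^[a + b] u = s → par^[b] v = s → par^[a] u = v := by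
    intro b
    induction b with
    | zero => exact fun a u v s _ p q => p.trans q.symm
    | succ b ih =>
      intro a u v s hs p q
      rw [← add_assoc, iterate_succ_apply'] at p
      rw [iterate_succ_apply'] at q
      exact ih a u v _ (fun e => hs (by rw [← q, e, h.pc])) (child s _ _ hs p q) rfl
  have anc : ∀ u v s, u ≠ v → (∃ k, par^[k] u = s) → (∃ k, par^[k] v = s) ∨ l s ≤ dist u v := by
    intro u v s a b
    obtain ⟨p, hp⟩ := hg.walk hT.connected a
    by_cases e : s ∈ p.support
    · exact Or.inr (hp s e)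
    · exact Or.inl (h.cut p b e)
  have itc : ∀ k, par^[k] c = c := fun k => iterate_fixed h.pc k
  have ancD : ∀ u k, u ≠ c → l (par^[k] u) ≤ dist u c := by
    intro u k hu
    rcases anc u c _ hu ⟨k, rfl⟩ with ⟨j, e⟩ | e
    · obtain ⟨p, hp⟩ := hg.walk hT.connected hu
      rw [← e, itc]; exact hp _ p.end_mem_support
    · exact e
  have Wc : ∀ r v, (∀ k, l (par^[k] v) ≤ r) → W T l r v c := fun r v =>
    h.ind (P := fun v => (∀ k, l (par^[k] v) ≤ r) → W T l r v c) (fun a => W.refl (a 0))
      (fun v hv ih a => W.cons (h.up hv) (a 0) (ih fun k => a (k + 1))) v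
  have Dpar : ∀ v, v ≠ c → dist (par v) c ≤ dist v c := fun v hv =>
    W.dist_le (fun _ _ => hg.adj) dist_nonneg (Wc _ _ fun k => ancD v (k + 1) hv)
  have iso : ∀ v, v ≠ c → ({v} : Set X) ∈ 𝓝 v := by
    intro v hv
    have hf : (T.neighborSet v).Finite := finite_of_encard_le_coe (k := 2) (deg v hv)
    refine mem_of_superset ((biInter_mem hf).2 fun z hz =>
      Metric.ball_mem_nhds v (dist_pos.2 (T.ne_of_adj hz))) fun w hw => ?_
    by_contra hn
    obtain ⟨p, hp⟩ := hg.walk hT.connected (Ne.symm hn)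
    cases p with
    | nil => exact hn rfl
    | @cons _ z _ a q =>
      have b := mem_iInter₂.1 hw z a
      have d := (hg.adj a).trans (max_le (hp v (by simp)) (hp z (by simp)))
      rw [Metric.mem_ball, _root_.dist_comm] at b
      linarith
  have fin : ∀ ε > (0 : ℝ), {w : X | ε ≤ dist w c}.Finite := by
    intro ε hε
    have hK : IsCompact {w : X | ε ≤ dist w c} := (isClosed_le continuous_const (by fun_prop)).isCompact
    obtain ⟨t, -, ht⟩ := hK.elim_nhds_subcover (fun v => {v}) fun v hv => iso v (by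
      rintro rfl
      simp only [mem_ofPred_eq, _root_.dist_self] at hv
      linarith)
    exact t.finite_toSet.subset fun w hw => by simpa using ht hw
  have near : ∀ ε > (0 : ℝ), ∃ w : X, w ≠ c ∧ dist w c < ε := fun ε hε => by
    obtain ⟨w, hw⟩ := ((fin ε hε).insert c).exists_notMem
    simp only [mem_insert_iff, mem_ofPred_eq, not_or, not_le] at hw
    exact ⟨w, hw⟩
  have lc : l c ≤ 0 := by
    by_contra a
    obtain ⟨w, p, q⟩ := near _ (not_le.1 a)
    obtain ⟨t, ht⟩ := hg.walk hT.connected p
    exact absurd (ht c t.end_mem_support) (not_le.2 q)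
  have st : ∀ v, ∃ s, v ≠ c → s ≠ c ∧ (∃ k, par^[k] v = s) ∧ l s = dist s c ∧ dist s c = dist v c ∧
      (l v = dist v c → s = v) ∧ ∀ s' k, par^[k] v = s' → s' ≠ c → l s' = dist s' c →
        ∃ j, par^[j] s = s' := by
    refine h.ind ⟨c, fun a => absurd rfl a⟩ fun v hv ih => ?_
    by_cases a : l v = dist v c
    · exact ⟨v, fun _ => ⟨hv, ⟨0, rfl⟩, a, rfl, fun _ => rfl, fun s' k e _ _ => ⟨k, e⟩⟩⟩
    have a' : l v < dist v c := lt_of_le_of_ne (ancD v 0 hv) a
    have b := hg.adj (h.up hv)
    have hp : par v ≠ c := fun e => by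
      rw [e, max_eq_left (lc.trans (hg.1 v))] at b
      linarith
    obtain ⟨s, s1, ⟨k, s2⟩, s3, s4, -, s6⟩ := ih.imp fun s hs => hs hp
    have d : dist v c ≤ dist (par v) c := by
      have e := (IsUltrametricDist.dist_triangle_max v (par v) c).trans (max_le_max_right _ b)
      rcases le_max_iff.1 e with f | f
      · rcases le_max_iff.1 f with g | g
        · linarith
        · exact g.trans (ancD (par v) 0 hp)
      · exact f
    refine ⟨s, fun _ => ⟨s1, ⟨k + 1, s2⟩, s3, s4.trans (le_antisymm (Dpar v hv) d),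
      fun e => absurd e a, fun s' j e p q => ?_⟩⟩
    cases j with
    | zero => exact absurd (by rw [show v = s' from e]; exact q) a
    | succ j => exact s6 s' j e p q
  choose s hs using st
  have ancu : ∀ a b, a ≠ c → b ≠ c → (∃ k, par^[k] a = b) → (∃ k, par^[k] b = a) → a = b := by
    rintro a b ha hb ⟨k, p⟩ ⟨j, q⟩
    have e1 := h.dep_eq k a (p ▸ hb)
    have e2 := h.dep_eq j b (q ▸ ha)
    rw [p] at e1
    rw [q] at e2
    obtain rfl : k = 0 := by omega
    exact p
  have seg : ∀ u v, u ≠ c → v ≠ c → s u = s v → dep v ≤ dep u → par^[dep u - dep v] u = v := by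
    intro u v hu hv e a
    obtain ⟨p1, ⟨k, p2⟩, -⟩ := hs u hu
    obtain ⟨-, ⟨j, q2⟩, -⟩ := hs v hv
    have e1 := h.dep_eq k u (p2 ▸ p1)
    have e2 := h.dep_eq j v (by rw [q2, ← e]; exact p1)
    rw [p2] at e1
    rw [q2, ← e] at e2
    exact chain j _ u v _ p1 (by rw [← p2]; congr 1; omega) (q2.trans e.symm)
  have far : ∀ u v, u ≠ c → v ≠ c → s u ≠ s v → dist v c ≤ dist u c → dist u c ≤ dist u v := by
    intro u v hu hv e a
    obtain ⟨p1, p2, p3, p4, -, p6⟩ := hs u hu
    obtain ⟨q1, q2, q3, q4, -, q6⟩ := hs v hv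
    have huv : u ≠ v := fun b => e (b ▸ rfl)
    rcases a.lt_or_eq with b | b
    · rcases le_max_iff.1 (IsUltrametricDist.dist_triangle_max u v c) with f | f
      · exact f
      · linarith
    rcases anc u v _ huv p2 with ⟨k, f⟩ | f
    · rcases anc v u _ huv.symm q2 with ⟨j, g⟩ | g
      · exact absurd (ancu _ _ p1 q1 (p6 _ j g q1 q3) (q6 _ k f p1 p3)) e
      · rw [_root_.dist_comm u v]; linarith
    · linarith
  have spar : ∀ v, v ≠ c → s v ≠ v → par v ≠ c ∧ s (par v) = s v := by
    intro v hv a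
    obtain ⟨p1, ⟨k, p2⟩, p3, -, -, p6⟩ := hs v hv
    cases k with
    | zero => exact absurd p2.symm a
    | succ k =>
      have hp : par v ≠ c := fun e => p1 (by rw [← p2, iterate_succ_apply, e, itc])
      obtain ⟨q1, ⟨j, q2⟩, q3, -, -, q6⟩ := hs _ hp
      exact ⟨hp, ancu _ _ q1 p1 (q6 _ k p2 p1 p3) (p6 _ (j + 1) q2 q1 q3)⟩
  let key : ({c}ᶜ : Set X) → ℝ ×ₗ Cardinal ×ₗ ℤ := fun v =>
    toLex (-dist v.1 c, toLex (embeddingToCardinal (s v.1), -(dep v.1 : ℤ)))
  have kle : ∀ u v, key u ≤ key v ↔ dist v.1 c < dist u.1 c ∨ (dist u.1 c = dist v.1 c ∧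
      (embeddingToCardinal (s u.1) < embeddingToCardinal (s v.1) ∨
        (s u.1 = s v.1 ∧ dep v.1 ≤ dep u.1))) := fun u v => by
    simp [key, Prod.Lex.toLex_le_toLex]
  have kD : ∀ u v, key u ≤ key v → dist v.1 c ≤ dist u.1 c := fun u v a =>
    ((kle u v).1 a).elim le_of_lt fun b => b.1.ge
  have sD : ∀ u v, u ≠ c → v ≠ c → s u = s v → dist u c = dist v c := fun u v hu hv e => by
    rw [← (hs u hu).2.2.2.1, ← (hs v hv).2.2.2.1, e]
  have kS : ∀ u v, key u ≤ key v → s u.1 = s v.1 → dep v.1 ≤ dep u.1 := fun u v a e => by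
    rcases (kle u v).1 a with b | ⟨-, b | b⟩
    · exact absurd (sD _ _ u.2 v.2 e) b.ne'
    · exact absurd (congrArg _ e) b.ne
    · exact b.2
  have ki : Injective key := fun u v e => by
    have a : s u.1 = s v.1 := by
      have := congrArg (fun t => (ofLex (ofLex t).2).1) e
      exact embeddingToCardinal.injective this
    have b := seg _ _ u.2 v.2 a (kS u v e.le a)
    rw [Nat.sub_eq_zero_of_le (kS v u e.ge a.symm)] at b
    exact Subtype.ext b
  have : Infinite ({c}ᶜ : Set X) := (finite_singleton c).infinite_compl.to_subtype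
  obtain ⟨x, hx⟩ := enum key ki fun v => ((fin _ (dist_pos.2 v.2)).preimage
    Subtype.val_injective.injOn).subset fun w hw => kD w v (le_of_lt hw)
  have xle : ∀ i j, i ≤ j → key (x i) ≤ key (x j) := fun i j a => hx.monotone a
  refine ⟨c, fun z => ?_, x, fun n => ?_, fun i k j hij h1 h2 => ?_⟩
  · by_cases e : z = c
    · rw [e, Metric.mem_closure_iff]
      intro ε hε
      obtain ⟨w, p, q⟩ := near ε hε
      exact ⟨w, p, by rwa [_root_.dist_comm]⟩
    · exact subset_closure e
  · by_cases a : s (x n).1 = (x n).1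
    · have b := (hs _ (x n).2).2.2.1
      rw [a] at b
      refine (IsUltrametricDist.dist_triangle_max _ c _).trans (le_max_of_le_left (max_le b.ge ?_))
      rw [_root_.dist_comm, b]
      exact kD _ _ (xle n (n + 1) (by omega))
    · obtain ⟨p, q⟩ := spar _ (x n).2 a
      obtain ⟨m, hm⟩ := x.surjective ⟨_, p⟩
      have hm' : (x m).1 = par (x n).1 := congrArg Subtype.val hm
      have d := h.dp _ (x n).2
      have e1 : n < m := by
        by_contra b
        have := kS _ _ (xle m n (not_lt.1 b)) (by rw [hm', q])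
        rw [hm'] at this
        omega
      have e2 : m = n + 1 := by
        by_contra b
        have f1 := xle n (n + 1) (by omega)
        have f2 := xle (n + 1) m (by omega)
        have g : s (x (n + 1)).1 = s (x n).1 := by
          have t := sD _ _ p (x n).2 q
          rcases (kle _ _).1 f1 with u1 | ⟨u0, u1 | u1⟩
          · have := kD _ _ f2
            rw [hm'] at this
            linarith
          · rcases (kle _ _).1 f2 with u2 | ⟨-, u2 | u2⟩
            · rw [hm'] at u2; linarith
            · rw [hm', q] at u2; exact absurd u1 u2.not_gt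
            · rw [u2.1, hm', q]
          · exact u1.1.symm
        have g1 := kS _ _ f1 g.symm
        have g2 := kS _ _ f2 (by rw [g, hm', q])
        rw [hm'] at g2
        have g3 := seg _ _ (x n).2 (x (n + 1)).2 g.symm g1
        rcases (show dep (x n).1 - dep (x (n + 1)).1 = 0 ∨ dep (x n).1 - dep (x (n + 1)).1 = 1
          by omega) with t | t
        · rw [t] at g3
          have := x.injective (Subtype.ext g3)
          omega
        · rw [t] at g3
          exact b (x.injective (Subtype.ext (hm'.trans g3)))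
      rw [← e2, hm']
      exact hg.adj (h.up (x n).2)
  · have hne : (x i).1 ≠ (x j).1 := fun e => hij.ne (x.injective (Subtype.ext e))
    have f1 := xle i k h1
    have f2 := xle k j h2
    by_cases a : s (x i).1 = s (x j).1
    · have g : s (x k).1 = s (x i).1 := by
        have t := sD _ _ (x i).2 (x j).2 a
        rcases (kle _ _).1 f1 with u1 | ⟨u0, u1 | u1⟩
        · linarith [kD _ _ f2]
        · rcases (kle _ _).1 f2 with u2 | ⟨-, u2 | u2⟩
          · linarith
          · rw [← a] at u2; exact absurd u1 u2.not_gt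
          · rw [u2.1, a]
        · exact u1.1.symm
      have g1 := kS _ _ f1 g.symm
      have g2 := kS _ _ f2 (g.trans a)
      rcases anc _ _ _ hne ⟨_, seg _ _ (x i).2 (x k).2 g.symm g1⟩ with t | t
      · have := ancu _ _ (x k).2 (x j).2 ⟨_, seg _ _ (x k).2 (x j).2 (g.trans a) g2⟩ t
        obtain ⟨p, hp⟩ := hg.walk hT.connected hne
        rw [this]; exact hp _ p.end_mem_support
      · exact t
    · exact (ancD _ 0 (x k).2).trans ((kD _ _ f1).trans
        (far _ _ (x i).2 (x j).2 a (kD _ _ (f1.trans f2))))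

end Pool.Agent.H.MP_16b74e_gt
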